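import Pool.Agent.X164.LN3.Step3

open Polynomial

namespace X164.LN3

open X164.LN X164.LN2

/-- the data at stage `j` -/
structure Good (M j : ℕ) (ρ : ℝ) (s : Multiset ℝ) : Prop where
  poly : (opP (j + 1) (X ^ M)).map (algebraMap ℚ ℝ)
      = C ((-1) ^ (j + 1) * ((j + 1).factorial : ℝ)) * pr (ρ ::ₘ s)
  card : Multiset.card s + 1 = M
  lt : ∀ r ∈ s, 0 ≤ r ∧ r < ρ
  S : u 1 s ρ ≤ 1
  low : (M : ℝ) ≤ ρ
  sum : (ρ ::ₘ s).sum = M * H (j + 1)
  gap : ∀ r ∈ s, r ≤ ρ - (M : ℝ) / 2 ^ j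

/-- the relation between two stages -/
structure Rel (j : ℕ) (ρ : ℝ) (s : Multiset ℝ) (ρ' : ℝ) (s' : Multiset ℝ) : Prop where
  inc : ρ < ρ'
  one : 1 / (ρ' - ρ) + u 1 s ρ' = (j : ℝ) + 2
  two : u 1 s' ρ' * ((1 / (ρ' - ρ)) ^ 2 + u 2 s ρ')
    = ((j : ℝ) + 2) * ((1 / (ρ' - ρ)) ^ 2 + u 2 s ρ') - ((1 / (ρ' - ρ)) ^ 3 + u 3 s ρ')

lemma good0 (M : ℕ) (hM : 1 ≤ M) : Good M 0 M (Multiset.replicate (M - 1) 0) := by
  have hM0 : (0 : ℝ) < M := by exact_mod_cast hM
  refine ⟨?_, ?_, ?_, ?_, le_rfl, ?_, ?_⟩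
  · obtain ⟨m, rfl⟩ := Nat.exists_eq_add_of_le' hM
    rw [opP_succ, opP, LinearMap.id_apply, pr_cons, pr, Multiset.map_replicate,
      Multiset.prod_replicate]
    simp [Polynomial.map_sub, Polynomial.map_mul, Polynomial.map_pow]
    ring
  · rw [Multiset.card_replicate]; omega
  · intro r hr
    rw [Multiset.eq_of_mem_replicate hr]
    exact ⟨le_rfl, hM0⟩
  · rw [u, Multiset.map_replicate, Multiset.sum_replicate, nsmul_eq_mul, sub_zero, pow_one,
      mul_one_div, div_le_one hM0]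
    exact_mod_cast Nat.sub_le M 1
  · rw [Multiset.sum_cons, Multiset.sum_replicate]
    simp [H]
  · intro r hr
    rw [Multiset.eq_of_mem_replicate hr]
    simp

lemma goodS (M : ℕ) (hM : 1 ≤ M) (j : ℕ) (ρ : ℝ) (s : Multiset ℝ) (h : Good M j ρ s) :
    ∃ p : ℝ × Multiset ℝ, Good M (j + 1) p.1 p.2 ∧ Rel j ρ s p.1 p.2 := by
  obtain ⟨h1, h2, h3, h4, h7, h8, h9⟩ := h
  have hM0 : (0 : ℝ) < M := by exact_mod_cast hM
  have hcard : (Multiset.card s : ℝ) + 1 = M := by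
    rw [← h2]; push_cast; ring
  have hρ : 0 < ρ := hM0.trans_le h7
  have hc : (2 : ℝ) ≤ (j : ℝ) + 2 := by
    have : (0 : ℝ) ≤ j := Nat.cast_nonneg j
    linarith
  have hg : (0 : ℝ) < (M : ℝ) / 2 ^ j := by positivity
  obtain ⟨ρ', s', g1, g2, g3, g4, g5, g6, g7, g8, g9⟩ :=
    step3 ρ s ((j : ℝ) + 2) hc hρ h3 h4 _ hg h9
  refine ⟨(ρ', s'), ⟨?_, ?_, g4, g5, h7.trans g3.le, ?_, ?_⟩, ⟨g3, g6, g7⟩⟩
  · rw [opP_succ', Polynomial.map_sub, ← derivative_map, Polynomial.map_mul, h1, ← g1,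
      Polynomial.map_C, derivative_C_mul, Nat.factorial_succ (j + 1)]
    have e2 : (algebraMap ℚ ℝ) (((j + 1 : ℕ) : ℚ) + 1) = (j : ℝ) + 2 := by
      push_cast
      ring
    rw [e2]
    have e3 : (C (1 / ((j : ℝ) + 2)) : ℝ[X]) * C ((j : ℝ) + 2) = 1 := by
      rw [← C_mul]
      have : 1 / ((j : ℝ) + 2) * ((j : ℝ) + 2) = 1 := by field_simp
      rw [this, C_1]
    have e4 : (C ((-1) ^ (j + 1 + 1) * (((j + 1 + 1) * (j + 1).factorial : ℕ) : ℝ)) : ℝ[X])
        = - (C ((j : ℝ) + 2) * C ((-1) ^ (j + 1) * ((j + 1).factorial : ℝ))) := by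
      rw [← C_mul, ← C_neg]
      congr 1
      push_cast
      ring
    rw [e4]
    linear_combination (- C ((-1) ^ (j + 1) * ((j + 1).factorial : ℝ))
      * derivative (pr (ρ ::ₘ s))) * e3
  · show Multiset.card s' + 1 = M
    omega
  · show (ρ' ::ₘ s').sum = _
    rw [g8, h8, hcard, H_succ (j + 1)]
    push_cast
    field_simp
    ring
  · intro r hr
    have := g9 r hr
    have e : (M : ℝ) / 2 ^ (j + 1) = (M : ℝ) / 2 ^ j / 2 := by rw [pow_succ]; field_simp
    show r ≤ ρ' - (M : ℝ) / 2 ^ (j + 1)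
    rw [e]; exact this

/-- the chain of largest roots and remaining roots -/
noncomputable def ch (M : ℕ) (hM : 1 ≤ M) : (j : ℕ) → {p : ℝ × Multiset ℝ // Good M j p.1 p.2}
  | 0 => ⟨((M : ℝ), Multiset.replicate (M - 1) 0), good0 M hM⟩
  | j + 1 => ⟨(goodS M hM j _ _ (ch M hM j).2).choose, (goodS M hM j _ _ (ch M hM j).2).choose_spec.1⟩

/-- largest root -/
noncomputable def R (m j : ℕ) : ℝ := (ch (m + 1) (by omega) j).1.1

/-- remaining roots -/
noncomputable def T (m j : ℕ) : Multiset ℝ := (ch (m + 1) (by omega) j).1.2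

lemma good (m j : ℕ) : Good (m + 1) j (R m j) (T m j) := (ch (m + 1) (by omega) j).2

lemma rel (m j : ℕ) : Rel j (R m j) (T m j) (R m (j + 1)) (T m (j + 1)) :=
  (goodS (m + 1) (by omega) j _ _ (ch (m + 1) (by omega) j).2).choose_spec.2

lemma R_zero (m : ℕ) : R m 0 = (m : ℝ) + 1 := by
  have : R m 0 = ((m + 1 : ℕ) : ℝ) := rfl
  rw [this]; push_cast; ring

lemma T_zero (m : ℕ) : T m 0 = Multiset.replicate m 0 := rfl

lemma u2_low (s : Multiset ℝ) (x : ℝ) (h : ∀ r ∈ s, 0 ≤ r ∧ r < x) :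
    (Multiset.card s : ℝ) * (1 / x) ^ 2 ≤ u 2 s x := by
  induction s using Multiset.induction_on with
  | empty => simp [u]
  | cons r s ih =>
    have h1 := ih (fun a ha => h a (Multiset.mem_cons_of_mem ha))
    obtain ⟨h0, h2⟩ := h r (Multiset.mem_cons_self _ _)
    rw [u_cons, Multiset.card_cons]
    push_cast
    have hx : 0 < x - r := by linarith
    have h3 : 1 / x ≤ 1 / (x - r) := one_div_le_one_div_of_le hx (by linarith)
    have h5 : 0 ≤ 1 / x := by
      have : 0 < x := by linarith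
      positivity
    have h4 : (1 / x) ^ 2 ≤ (1 / (x - r)) ^ 2 := pow_le_pow_left₀ h5 h3 2
    linarith

lemma u2_up (s : Multiset ℝ) (x g : ℝ) (hx : 0 < x) (hg : 0 < g) (h : ∀ r ∈ s, 0 ≤ r ∧ r ≤ x - g) :
    u 2 s x ≤ (Multiset.card s : ℝ) * (1 / x) ^ 2 + 2 * s.sum / (x * g ^ 2) := by
  induction s using Multiset.induction_on with
  | empty => simp [u]
  | cons r s ih =>
    have h1 := ih (fun a ha => h a (Multiset.mem_cons_of_mem ha))
    obtain ⟨h0, h2⟩ := h r (Multiset.mem_cons_self _ _)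
    rw [u_cons, Multiset.card_cons, Multiset.sum_cons]
    push_cast
    have hxr : g ≤ x - r := by linarith
    have hxr0 : 0 < x - r := by linarith
    have h3 : (1 / (x - r)) ^ 2 ≤ (1 / x) ^ 2 + 2 * r / (x * g ^ 2) := by
      have e : (1 / (x - r)) ^ 2 = (1 / x) ^ 2 + r * (2 * x - r) / (x ^ 2 * (x - r) ^ 2) := by
        field_simp
        ring
      rw [e]
      have h4 : r * (2 * x - r) / (x ^ 2 * (x - r) ^ 2) ≤ r * (2 * x) / (x ^ 2 * g ^ 2) := by
        apply div_le_div₀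
        · positivity
        · apply mul_le_mul_of_nonneg_left _ h0
          linarith
        · positivity
        · apply mul_le_mul_of_nonneg_left _ (by positivity)
          exact pow_le_pow_left₀ hg.le hxr 2
      have h5 : r * (2 * x) / (x ^ 2 * g ^ 2) = 2 * r / (x * g ^ 2) := by
        field_simp
      linarith
    have e2 : 2 * (r + s.sum) / (x * g ^ 2) = 2 * r / (x * g ^ 2) + 2 * s.sum / (x * g ^ 2) := by
      ring
    rw [e2]
    linarith

lemma u3_up (s : Multiset ℝ) (x g : ℝ) (hg : 0 < g) (h : ∀ r ∈ s, r ≤ x - g) :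
    u 3 s x ≤ (1 / g) * u 2 s x := by
  induction s using Multiset.induction_on with
  | empty => simp [u]
  | cons r s ih =>
    have h1 := ih (fun a ha => h a (Multiset.mem_cons_of_mem ha))
    have h2 := h r (Multiset.mem_cons_self _ _)
    rw [u_cons, u_cons]
    have hxr : g ≤ x - r := by linarith
    have h3 : 1 / (x - r) ≤ 1 / g := one_div_le_one_div_of_le hg hxr
    have h4 : (1 / (x - r)) ^ 3 ≤ 1 / g * (1 / (x - r)) ^ 2 := by
      rw [pow_succ']
      exact mul_le_mul_of_nonneg_right h3 (by positivity)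
    linarith

lemma u_anti2 (s : Multiset ℝ) (x y : ℝ) (hxy : x ≤ y) (h : ∀ r ∈ s, r < x) :
    u 1 s x - u 1 s y ≤ (y - x) * u 2 s x := by
  induction s using Multiset.induction_on with
  | empty => simp [u]
  | cons r s ih =>
    have h1 := ih (fun a ha => h a (Multiset.mem_cons_of_mem ha))
    have h2 := h r (Multiset.mem_cons_self _ _)
    rw [u_cons, u_cons, u_cons]
    have hx : 0 < x - r := by linarith
    have hy : 0 < y - r := by linarith
    have h3 : (1 / (x - r)) ^ 1 - (1 / (y - r)) ^ 1 ≤ (y - x) * (1 / (x - r)) ^ 2 := by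
      have e : (y - x) * (1 / (x - r)) ^ 2 - ((1 / (x - r)) ^ 1 - (1 / (y - r)) ^ 1)
          = (y - x) ^ 2 / ((y - r) * (x - r) ^ 2) := by
        field_simp
        ring
      have : 0 ≤ (y - x) ^ 2 / ((y - r) * (x - r) ^ 2) := by positivity
      linarith
    linarith

end X164.LN3
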