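import Pool.Agent.X164.LN3.Chain

open Filter Topology

namespace X164.LN3

open X164.LN X164.LN2

lemma card_T (m j : ℕ) : (Multiset.card (T m j) : ℝ) = m := by
  have := (good m j).card
  have h : Multiset.card (T m j) = m := by omega
  rw [h]

lemma R_low (m j : ℕ) : (m : ℝ) + 1 ≤ R m j := by
  have := (good m j).low
  push_cast at this
  exact this

/-- `1` minus the sum of the reciprocals at the next largest root -/
noncomputable def α (m j : ℕ) : ℝ := 1 - u 1 (T m j) (R m (j + 1))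

lemma sm (m j : ℕ) : u 1 (T m j) (R m (j + 1)) ≤ u 1 (T m j) (R m j) := by
  have h1 := u_anti (T m j) (R m j) (R m (j + 1)) (rel m j).inc.le (fun r hr => ((good m j).lt r hr).2)
  have h2 := u_nonneg 2 (T m j) (R m (j + 1))
    (fun r hr => ((good m j).lt r hr).2.trans (rel m j).inc)
  have h3 : 0 ≤ (R m (j + 1) - R m j) * u 2 (T m j) (R m (j + 1)) :=
    mul_nonneg (by linarith [(rel m j).inc]) h2
  linarith

lemma α_nonneg (m j : ℕ) : 0 ≤ α m j := by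
  have h1 := sm m j
  have h2 := (good m j).S
  rw [α]; linarith

lemma d_eq (m j : ℕ) : 1 / (R m (j + 1) - R m j) = (j : ℝ) + 1 + α m j := by
  have := (rel m j).one
  rw [α]; linarith

lemma d_eq' (m j : ℕ) : R m (j + 1) - R m j = 1 / ((j : ℝ) + 1 + α m j) := by
  rw [← d_eq, one_div_one_div]

lemma R_up (m j : ℕ) : R m j ≤ ((m : ℝ) + 1) + H j := by
  induction j with
  | zero => rw [R_zero]; simp [H]
  | succ j ih =>
    rw [H_succ]
    have h1 := d_eq' m j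
    have h2 := α_nonneg m j
    have h3 : 1 / ((j : ℝ) + 1 + α m j) ≤ 1 / ((j : ℝ) + 1) :=
      one_div_le_one_div_of_le (by positivity) (by linarith)
    linarith

lemma α_up (m j : ℕ) : ((m : ℝ) + 1) * α m j ≤ 1 + H (j + 1) := by
  have h1 := u_lower (T m j) (R m (j + 1))
    (fun r hr => ⟨((good m j).lt r hr).1, ((good m j).lt r hr).2.trans (rel m j).inc⟩)
  rw [card_T] at h1
  have h2 := R_up m (j + 1)
  have h3 := R_low m (j + 1)
  have h0 := H_nonneg (j + 1)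
  have hm : (0 : ℝ) ≤ m := Nat.cast_nonneg m
  have h4 : 1 / ((m : ℝ) + 1 + H (j + 1)) ≤ 1 / R m (j + 1) :=
    one_div_le_one_div_of_le (by linarith) h2
  have h5 := mul_le_mul_of_nonneg_left h4 hm
  have h6 : α m j ≤ 1 - (m : ℝ) * (1 / ((m : ℝ) + 1 + H (j + 1))) := by
    rw [α]; linarith
  have h7 : 1 - (m : ℝ) * (1 / ((m : ℝ) + 1 + H (j + 1))) = (1 + H (j + 1)) / ((m : ℝ) + 1 + H (j + 1)) := by
    field_simp
    ring
  rw [h7] at h6
  have h8 : ((m : ℝ) + 1) * ((1 + H (j + 1)) / ((m : ℝ) + 1 + H (j + 1))) ≤ 1 + H (j + 1) := by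
    rw [mul_div_assoc', div_le_iff₀ (by positivity)]
    nlinarith
  have h9 := mul_le_mul_of_nonneg_left h6 (show (0 : ℝ) ≤ (m : ℝ) + 1 by positivity)
  linarith

lemma sum_T (m j : ℕ) : (T m j).sum ≤ ((m : ℝ) + 1) * H (j + 1) := by
  have h1 := (good m j).sum
  rw [Multiset.sum_cons] at h1
  push_cast at h1
  have h2 := R_low m j
  have h3 : (0 : ℝ) ≤ m := Nat.cast_nonneg m
  linarith

lemma lim0 : Tendsto (fun m : ℕ => 1 / ((m : ℝ) + 1)) atTop (𝓝 0) :=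
  tendsto_one_div_add_atTop_nhds_zero_nat

lemma tau_lim (j : ℕ) (K K' : ℝ) (hK : 0 ≤ K) (hK' : 0 ≤ K') (x : ℕ → ℝ) (s : ℕ → Multiset ℝ)
    (h1 : ∀ m : ℕ, (m : ℝ) + 1 ≤ x m) (h2 : ∀ m : ℕ, x m ≤ (m : ℝ) + 1 + K)
    (h3 : ∀ m, (Multiset.card (s m) : ℝ) = m) (h4 : ∀ m, (s m).sum ≤ ((m : ℝ) + 1) * K')
    (h5 : ∀ m, ∀ r ∈ s m, 0 ≤ r ∧ r ≤ x m - ((m : ℝ) + 1) / 2 ^ j) :
    Tendsto (fun m : ℕ => ((m : ℝ) + 1) * u 2 (s m) (x m)) atTop (𝓝 1) := by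
  have l1 : Tendsto (fun m : ℕ => ((m : ℝ) / ((m : ℝ) + (1 + K))) ^ 2) atTop (𝓝 1) := by
    have := (tendsto_natCast_div_add_atTop (𝕜 := ℝ) (1 + K)).pow 2
    rwa [one_pow] at this
  have l2 : Tendsto (fun m : ℕ => 1 + 2 * K' * 4 ^ j * (1 / ((m : ℝ) + 1))) atTop (𝓝 1) := by
    have := (lim0.const_mul (2 * K' * 4 ^ j)).const_add 1
    rwa [mul_zero, add_zero] at this
  refine tendsto_of_tendsto_of_tendsto_of_le_of_le l1 l2 ?_ ?_
  · intro m
    have hm : (0 : ℝ) ≤ m := Nat.cast_nonneg m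
    have hx : 0 < x m := by linarith [h1 m]
    have hg : (0 : ℝ) < ((m : ℝ) + 1) / 2 ^ j := by positivity
    have e1 := u2_low (s m) (x m) (fun r hr => ⟨(h5 m r hr).1, by linarith [(h5 m r hr).2]⟩)
    rw [h3] at e1
    have e2 : 1 / ((m : ℝ) + 1 + K) ≤ 1 / x m := one_div_le_one_div_of_le hx (h2 m)
    have e3 : (1 / ((m : ℝ) + 1 + K)) ^ 2 ≤ (1 / x m) ^ 2 :=
      pow_le_pow_left₀ (by positivity) e2 2
    show ((m : ℝ) / ((m : ℝ) + (1 + K))) ^ 2 ≤ ((m : ℝ) + 1) * u 2 (s m) (x m)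
    have e4 : ((m : ℝ) / ((m : ℝ) + (1 + K))) ^ 2 = (m : ℝ) * ((m : ℝ) * (1 / ((m : ℝ) + 1 + K)) ^ 2) := by
      rw [← add_assoc]; field_simp
    rw [e4]
    have e5 : (m : ℝ) * (1 / ((m : ℝ) + 1 + K)) ^ 2 ≤ u 2 (s m) (x m) :=
      (mul_le_mul_of_nonneg_left e3 hm).trans e1
    have e6 : 0 ≤ (m : ℝ) * (1 / ((m : ℝ) + 1 + K)) ^ 2 := by positivity
    exact mul_le_mul (by linarith) e5 e6 (by linarith)
  · intro m
    have hm : (0 : ℝ) ≤ m := Nat.cast_nonneg m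
    have hx : 0 < x m := by linarith [h1 m]
    have hg : (0 : ℝ) < ((m : ℝ) + 1) / 2 ^ j := by positivity
    have e1 := u2_up (s m) (x m) _ hx hg (h5 m)
    rw [h3] at e1
    have hM : (0 : ℝ) < (m : ℝ) + 1 := by positivity
    have e2 : 1 / x m ≤ 1 / ((m : ℝ) + 1) := one_div_le_one_div_of_le hM (h1 m)
    have e3 : (1 / x m) ^ 2 ≤ (1 / ((m : ℝ) + 1)) ^ 2 := pow_le_pow_left₀ (by positivity) e2 2
    have e4 : 2 * (s m).sum / (x m * (((m : ℝ) + 1) / 2 ^ j) ^ 2)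
        ≤ 2 * (((m : ℝ) + 1) * K') / (((m : ℝ) + 1) * (((m : ℝ) + 1) / 2 ^ j) ^ 2) := by
      apply div_le_div₀
      · positivity
      · linarith [h4 m]
      · positivity
      · exact mul_le_mul_of_nonneg_right (h1 m) (by positivity)
    have e5 : 2 * (((m : ℝ) + 1) * K') / (((m : ℝ) + 1) * (((m : ℝ) + 1) / 2 ^ j) ^ 2)
        = 2 * K' * 4 ^ j / ((m : ℝ) + 1) ^ 2 := by
      have : (4 : ℝ) ^ j = (2 ^ j) ^ 2 := by rw [← pow_mul, mul_comm, pow_mul]; norm_num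
      rw [this]
      field_simp
    have e6 : (m : ℝ) * (1 / x m) ^ 2 ≤ (m : ℝ) * (1 / ((m : ℝ) + 1)) ^ 2 :=
      mul_le_mul_of_nonneg_left e3 hm
    have e7 : u 2 (s m) (x m) ≤ (m : ℝ) * (1 / ((m : ℝ) + 1)) ^ 2 + 2 * K' * 4 ^ j / ((m : ℝ) + 1) ^ 2 := by
      rw [e5] at e4
      linarith
    show ((m : ℝ) + 1) * u 2 (s m) (x m) ≤ 1 + 2 * K' * 4 ^ j * (1 / ((m : ℝ) + 1))
    have e8 := mul_le_mul_of_nonneg_left e7 hM.le
    have e9 : ((m : ℝ) + 1) * ((m : ℝ) * (1 / ((m : ℝ) + 1)) ^ 2 + 2 * K' * 4 ^ j / ((m : ℝ) + 1) ^ 2)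
        = m / ((m : ℝ) + 1) + 2 * K' * 4 ^ j * (1 / ((m : ℝ) + 1)) := by
      field_simp
    have e10 : (m : ℝ) / ((m : ℝ) + 1) ≤ 1 := by
      rw [div_le_one hM]; linarith
    linarith

lemma tau3_lim (j : ℕ) (x : ℕ → ℝ) (s : ℕ → Multiset ℝ)
    (h5 : ∀ m, ∀ r ∈ s m, r ≤ x m - ((m : ℝ) + 1) / 2 ^ j)
    (h : Tendsto (fun m : ℕ => ((m : ℝ) + 1) * u 2 (s m) (x m)) atTop (𝓝 1)) :
    Tendsto (fun m : ℕ => ((m : ℝ) + 1) * u 3 (s m) (x m)) atTop (𝓝 0) := by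
  have l2 : Tendsto (fun m : ℕ => (2 ^ j * (1 / ((m : ℝ) + 1))) * (((m : ℝ) + 1) * u 2 (s m) (x m)))
      atTop (𝓝 0) := by
    have := (lim0.const_mul (2 ^ j)).mul h
    rwa [mul_zero, zero_mul] at this
  refine tendsto_of_tendsto_of_tendsto_of_le_of_le tendsto_const_nhds l2 ?_ ?_
  · intro m
    have hg : (0 : ℝ) < ((m : ℝ) + 1) / 2 ^ j := by positivity
    have := u_nonneg 3 (s m) (x m) (fun r hr => by linarith [h5 m r hr])
    show (0 : ℝ) ≤ ((m : ℝ) + 1) * u 3 (s m) (x m)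
    positivity
  · intro m
    have hg : (0 : ℝ) < ((m : ℝ) + 1) / 2 ^ j := by positivity
    have e1 := u3_up (s m) (x m) _ hg (h5 m)
    show ((m : ℝ) + 1) * u 3 (s m) (x m) ≤ (2 ^ j * (1 / ((m : ℝ) + 1))) * (((m : ℝ) + 1) * u 2 (s m) (x m))
    have e2 := mul_le_mul_of_nonneg_left e1 (show (0 : ℝ) ≤ (m : ℝ) + 1 by positivity)
    have e3 : ((m : ℝ) + 1) * (1 / (((m : ℝ) + 1) / 2 ^ j) * u 2 (s m) (x m))
        = (2 ^ j * (1 / ((m : ℝ) + 1))) * (((m : ℝ) + 1) * u 2 (s m) (x m)) := by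
      field_simp
    linarith

lemma gapR (m j : ℕ) : ∀ r ∈ T m j, 0 ≤ r ∧ r ≤ R m j - ((m : ℝ) + 1) / 2 ^ j := by
  intro r hr
  have := (good m j).gap r hr
  push_cast at this
  exact ⟨((good m j).lt r hr).1, this⟩

lemma gapR' (m j : ℕ) : ∀ r ∈ T m j, 0 ≤ r ∧ r ≤ R m (j + 1) - ((m : ℝ) + 1) / 2 ^ j := by
  intro r hr
  have := gapR m j r hr
  exact ⟨this.1, by linarith [this.2, (rel m j).inc]⟩

lemma tau_a (j : ℕ) : Tendsto (fun m : ℕ => ((m : ℝ) + 1) * u 2 (T m j) (R m j)) atTop (𝓝 1) :=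
  tau_lim j (H j) (H (j + 1)) (H_nonneg _) (H_nonneg _) _ _ (fun m => R_low m j) (fun m => R_up m j)
    (fun m => card_T m j) (fun m => sum_T m j) (fun m => gapR m j)

lemma tau_b (j : ℕ) : Tendsto (fun m : ℕ => ((m : ℝ) + 1) * u 2 (T m j) (R m (j + 1))) atTop (𝓝 1) :=
  tau_lim j (H (j + 1)) (H (j + 1)) (H_nonneg _) (H_nonneg _) _ _ (fun m => R_low m (j + 1))
    (fun m => R_up m (j + 1))
    (fun m => card_T m j) (fun m => sum_T m j) (fun m => gapR' m j)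

lemma tau_c (j : ℕ) : Tendsto (fun m : ℕ => ((m : ℝ) + 1) * u 3 (T m j) (R m (j + 1))) atTop (𝓝 0) :=
  tau3_lim j _ _ (fun m r hr => (gapR' m j r hr).2) (tau_b j)

lemma α_lim (j : ℕ) : Tendsto (fun m : ℕ => α m j) atTop (𝓝 0) := by
  have l2 : Tendsto (fun m : ℕ => (1 + H (j + 1)) * (1 / ((m : ℝ) + 1))) atTop (𝓝 0) := by
    have := lim0.const_mul (1 + H (j + 1))
    rwa [mul_zero] at this
  refine tendsto_of_tendsto_of_tendsto_of_le_of_le tendsto_const_nhds l2 (fun m => α_nonneg m j) ?_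
  intro m
  show α m j ≤ (1 + H (j + 1)) * (1 / ((m : ℝ) + 1))
  rw [mul_one_div, le_div_iff₀ (by positivity)]
  linarith [α_up m j]

lemma d_lim (j : ℕ) : Tendsto (fun m : ℕ => R m (j + 1) - R m j) atTop (𝓝 (1 / ((j : ℝ) + 1))) := by
  have h1 : Tendsto (fun m : ℕ => 1 / ((j : ℝ) + 1 + α m j)) atTop (𝓝 (1 / ((j : ℝ) + 1 + 0))) :=
    tendsto_const_nhds.div ((α_lim j).const_add _) (by positivity)
  rw [add_zero] at h1
  exact h1.congr (fun m => (d_eq' m j).symm)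

lemma B_of_A (j : ℕ)
    (hA : Tendsto (fun m : ℕ => ((m : ℝ) + 1) * (1 - u 1 (T m j) (R m j))) atTop (𝓝 1)) :
    Tendsto (fun m : ℕ => ((m : ℝ) + 1) * α m j) atTop (𝓝 (1 + 1 / ((j : ℝ) + 1))) := by
  have l1 := (d_lim j).mul (tau_b j)
  have l2 := (d_lim j).mul (tau_a j)
  rw [mul_one] at l1 l2
  have l3 : Tendsto (fun m : ℕ => ((m : ℝ) + 1) * (u 1 (T m j) (R m j) - u 1 (T m j) (R m (j + 1))))
      atTop (𝓝 (1 / ((j : ℝ) + 1))) := by
    refine tendsto_of_tendsto_of_tendsto_of_le_of_le l1 l2 ?_ ?_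
    · intro m
      have h1 := u_anti (T m j) (R m j) (R m (j + 1)) (rel m j).inc.le
        (fun r hr => ((good m j).lt r hr).2)
      have h2 := mul_le_mul_of_nonneg_left h1 (show (0 : ℝ) ≤ (m : ℝ) + 1 by positivity)
      show (R m (j + 1) - R m j) * (((m : ℝ) + 1) * u 2 (T m j) (R m (j + 1))) ≤ _
      linarith
    · intro m
      have h1 := u_anti2 (T m j) (R m j) (R m (j + 1)) (rel m j).inc.le
        (fun r hr => ((good m j).lt r hr).2)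
      have h2 := mul_le_mul_of_nonneg_left h1 (show (0 : ℝ) ≤ (m : ℝ) + 1 by positivity)
      show _ ≤ (R m (j + 1) - R m j) * (((m : ℝ) + 1) * u 2 (T m j) (R m j))
      linarith
  refine (hA.add l3).congr (fun m => ?_)
  rw [α]; ring

lemma A_succ (j : ℕ)
    (hB : Tendsto (fun m : ℕ => ((m : ℝ) + 1) * α m j) atTop (𝓝 (1 + 1 / ((j : ℝ) + 1)))) :
    Tendsto (fun m : ℕ => ((m : ℝ) + 1) * (1 - u 1 (T m (j + 1)) (R m (j + 1)))) atTop (𝓝 1) := by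
  have hJ : (0 : ℝ) < (j : ℝ) + 1 := by positivity
  have ha : Tendsto (fun m : ℕ => (j : ℝ) + 1 + α m j) atTop (𝓝 ((j : ℝ) + 1)) := by
    have := (α_lim j).const_add ((j : ℝ) + 1)
    rwa [add_zero] at this
  have h20 : Tendsto (fun m : ℕ => u 2 (T m j) (R m (j + 1))) atTop (𝓝 0) := by
    have := lim0.mul (tau_b j)
    rw [zero_mul] at this
    refine this.congr (fun m => ?_)
    field_simp
  have h := ((((ha.pow 2).mul hB).add (tau_c j)).sub ((tau_b j).const_mul ((j : ℝ) + 1))).div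
    ((ha.pow 2).add h20) (by positivity)
  have hval : (((j : ℝ) + 1) ^ 2 * (1 + 1 / ((j : ℝ) + 1)) + 0 - ((j : ℝ) + 1) * 1)
      / (((j : ℝ) + 1) ^ 2 + 0) = 1 := by
    field_simp
    ring
  rw [hval] at h
  refine h.congr (fun m => ?_)
  have h2 := (rel m j).two
  rw [d_eq] at h2
  have hpos : 0 < ((j : ℝ) + 1 + α m j) ^ 2 + u 2 (T m j) (R m (j + 1)) := by
    have e1 := α_nonneg m j
    have e2 := u_nonneg 2 (T m j) (R m (j + 1))
      (fun r hr => ((good m j).lt r hr).2.trans (rel m j).inc)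
    positivity
  simp only [Pi.div_apply]
  rw [div_eq_iff hpos.ne']
  linear_combination ((m : ℝ) + 1) * h2

lemma A_zero : Tendsto (fun m : ℕ => ((m : ℝ) + 1) * (1 - u 1 (T m 0) (R m 0))) atTop (𝓝 1) := by
  refine tendsto_const_nhds.congr (fun m => ?_)
  rw [T_zero, R_zero, u, Multiset.map_replicate, Multiset.sum_replicate, nsmul_eq_mul, sub_zero,
    pow_one]
  field_simp
  ring

lemma A_all (j : ℕ) :
    Tendsto (fun m : ℕ => ((m : ℝ) + 1) * (1 - u 1 (T m j) (R m j))) atTop (𝓝 1) := by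
  induction j with
  | zero => exact A_zero
  | succ j ih => exact A_succ j (B_of_A j ih)

lemma B_all (j : ℕ) :
    Tendsto (fun m : ℕ => ((m : ℝ) + 1) * α m j) atTop (𝓝 (1 + 1 / ((j : ℝ) + 1))) :=
  B_of_A j (A_all j)

end X164.LN3
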