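import Pool.Agent.X164.LN3.Lim
import Pool.Agent.X164.LN2.Last
import Pool.Agent.X9.LN.EUL

open Filter Topology Polynomial

namespace X164.LN3

open X164.LN X164.LN2

lemma R_sum (m j : ℕ) : ((m : ℝ) + 1) * (R m j - ((m : ℝ) + 1) - H j)
    = - ∑ i ∈ Finset.range j, ((m : ℝ) + 1) * α m i / (((i : ℝ) + 1) * ((i : ℝ) + 1 + α m i)) := by
  induction j with
  | zero => rw [R_zero]; simp [H]
  | succ j ih =>
    rw [Finset.sum_range_succ, neg_add, ← ih, H_succ]
    have h1 := d_eq' m j
    have h2 := α_nonneg m j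
    have h3 : R m (j + 1) = R m j + 1 / ((j : ℝ) + 1 + α m j) := by linarith
    rw [h3]
    have h4 : ((j : ℝ) + 1 + α m j) ≠ 0 := by positivity
    field_simp
    ring

lemma summ : Summable (fun i : ℕ => (1 + H (i + 1)) / ((i : ℝ) + 1) ^ 2) := by
  apply summable_of_sum_range_le (c := 5)
  · intro i
    have := H_nonneg (i + 1)
    positivity
  · intro j
    exact E_le j

lemma tannery (k : ℕ) : Tendsto (fun j : ℕ =>
      (((j + k : ℕ) : ℝ) + 1) * (R (j + k) j - (((j + k : ℕ) : ℝ) + 1) - H j)) atTop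
    (𝓝 (- ∑' i : ℕ, (1 + 1 / ((i : ℝ) + 1)) / ((i : ℝ) + 1) ^ 2)) := by
  have h := tendsto_tsum_of_dominated_convergence (𝓕 := atTop)
    (f := fun (j : ℕ) (i : ℕ) => if i < j then
      (((j + k : ℕ) : ℝ) + 1) * α (j + k) i / (((i : ℝ) + 1) * ((i : ℝ) + 1 + α (j + k) i)) else 0)
    (g := fun i : ℕ => (1 + 1 / ((i : ℝ) + 1)) / ((i : ℝ) + 1) ^ 2)
    (bound := fun i : ℕ => (1 + H (i + 1)) / ((i : ℝ) + 1) ^ 2) summ ?_ ?_
  · refine h.neg.congr (fun j => ?_)
    rw [R_sum, tsum_eq_sum (s := Finset.range j)]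
    · congr 1
      refine Finset.sum_congr rfl (fun i hi => ?_)
      rw [if_pos (Finset.mem_range.mp hi)]
    · intro i hi
      rw [Finset.mem_range] at hi
      rw [if_neg hi]
  · intro i
    have hadd : Tendsto (fun j : ℕ => j + k) atTop atTop := tendsto_add_atTop_nat k
    have h1 := (B_all i).comp hadd
    have h2 := (α_lim i).comp hadd
    have h3 := h1.div ((h2.const_add ((i : ℝ) + 1)).const_mul ((i : ℝ) + 1)) (by positivity)
    have e : (1 + 1 / ((i : ℝ) + 1)) / (((i : ℝ) + 1) * ((i : ℝ) + 1 + 0))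
        = (1 + 1 / ((i : ℝ) + 1)) / ((i : ℝ) + 1) ^ 2 := by
      rw [add_zero, pow_two]
    rw [e] at h3
    refine h3.congr' ?_
    filter_upwards [eventually_gt_atTop i] with j hj
    rw [if_pos hj]
    rfl
  · refine Eventually.of_forall (fun j i => ?_)
    have h0 := α_nonneg (j + k) i
    have hH := H_nonneg (i + 1)
    split_ifs with hij
    · rw [Real.norm_of_nonneg (by positivity)]
      apply div_le_div₀ (by positivity) (α_up (j + k) i) (by positivity)
      rw [pow_two]
      exact mul_le_mul_of_nonneg_left (by linarith) (by positivity)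
    · rw [norm_zero]; positivity

lemma greatest (j k : ℕ) :
    IsGreatest {x : ℝ | aeval x (Lk (j + 2) (k + 1)) = 0} (R (j + k + 1) j) := by
  have h1 := (good (j + k + 1) j).poly
  have h3 := (good (j + k + 1) j).lt
  have hf := Lk_formula (j + 1) k
  have e1 : j + 1 + k + 1 = j + k + 1 + 1 := by omega
  rw [e1] at hf
  generalize R (j + k + 1) j = ρ at *
  generalize T (j + k + 1) j = s at *
  have hc : ((k : ℚ) + 1) / ((j + 1 + 1).factorial : ℚ) * (-1) ^ (j + 1 + k) ≠ 0 := by
    have h1 : (0 : ℚ) < ((k : ℚ) + 1) / ((j + 1 + 1).factorial : ℚ) := by positivity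
    exact mul_ne_zero h1.ne' (pow_ne_zero _ (by norm_num))
  have hiff : ∀ x : ℝ, aeval x (Lk (j + 2) (k + 1)) = 0 ↔ (pr (ρ ::ₘ s)).eval x = 0 := by
    intro x
    have e2 : Lk (j + 2) (k + 1) = Lk (j + 1 + 1) (k + 1) := rfl
    rw [e2, hf, map_mul, aeval_C, mul_eq_zero, or_iff_right (by
      intro h; exact hc ((map_eq_zero _).mp h)), ← eval_map_algebraMap, h1, eval_mul, eval_C,
      mul_eq_zero, or_iff_right]
    intro h
    rcases mul_eq_zero.mp h with h | h
    · exact absurd h (pow_ne_zero _ (by norm_num))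
    · exact absurd h (by positivity)
  constructor
  · rw [Set.mem_ofPred_eq, hiff, pr_cons]
    simp
  · intro x hx
    rw [Set.mem_ofPred_eq, hiff] at hx
    by_contra h
    push Not at h
    refine (pr_pos (ρ ::ₘ s) x ?_).ne' hx
    intro r hr
    rcases Multiset.mem_cons.mp hr with rfl | hr
    · exact h
    · exact (h3 r hr).2.trans h

end X164.LN3
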